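import Pool.Agent.Helper341.Alt.LemV
set_option autoImplicit false
set_option linter.unusedSectionVars false

/-!
Assembly: from five identities of alternative rings to `U ∩ D ≠ 0`.
-/

namespace Pool.Agent.Helper341.Alt.Asm
open Pool.Agent.Helper928.Nuc.Tens Pool.Agent.Helper928.Nuc.Free Pool.Agent.Helper928.Nuc.Alt

/-! ### Dual numbers over a nonassociative ring -/
/-- `A[ε]` with `ε² = 0` -/
def DN (A : Type) : Type := A × A

namespace DN
variable {A : Type} [NonUnitalNonAssocRing A]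
instance : AddCommGroup (DN A) := inferInstanceAs (AddCommGroup (A × A))
instance : Mul (DN A) := ⟨fun x y => (x.1 * y.1, x.1 * y.2 + x.2 * y.1)⟩
omit [NonUnitalNonAssocRing A] in
lemma ext {x y : DN A} (h1 : x.1 = y.1) (h2 : x.2 = y.2) : x = y := Prod.ext h1 h2
lemma mul1 (x y : DN A) : (x * y).1 = x.1 * y.1 := rfl
lemma mul2 (x y : DN A) : (x * y).2 = x.1 * y.2 + x.2 * y.1 := rfl
lemma add1 (x y : DN A) : (x + y).1 = x.1 + y.1 := rfl
lemma add2 (x y : DN A) : (x + y).2 = x.2 + y.2 := rfl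
lemma sub1 (x y : DN A) : (x - y).1 = x.1 - y.1 := rfl
lemma sub2 (x y : DN A) : (x - y).2 = x.2 - y.2 := rfl
lemma zero1 : (0 : DN A).1 = 0 := rfl
lemma zero2 : (0 : DN A).2 = 0 := rfl
instance : NonUnitalNonAssocRing (DN A) where
  left_distrib := by
    intro a b c
    apply ext
    · simp only [mul1, add1, mul_add]
    · simp only [mul2, add1, add2, mul_add]; abel
  right_distrib := by
    intro a b c
    apply ext
    · simp only [mul1, add1, add_mul]
    · simp only [mul2, add1, add2, add_mul]; abel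
  zero_mul := by
    intro a
    apply ext
    · simp only [mul1, zero1, zero_mul]
    · simp only [mul2, zero1, zero2, zero_mul, add_zero]
  mul_zero := by
    intro a
    apply ext
    · simp only [mul1, zero1, mul_zero]
    · simp only [mul2, zero1, zero2, mul_zero, add_zero]

lemma as1 (x y z : DN A) : (as x y z).1 = as x.1 y.1 z.1 := rfl
lemma as2 (x y z : DN A) : (as x y z).2 = as x.2 y.1 z.1 + as x.1 y.2 z.1 + as x.1 y.1 z.2 := by
  unfold as
  simp only [sub2, mul2, mul1, mul_add, add_mul]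
  abel
lemma br1 (x y : DN A) : (br x y).1 = br x.1 y.1 := rfl
lemma br2 (x y : DN A) : (br x y).2 = br x.2 y.1 + br x.1 y.2 := by
  unfold br
  simp only [sub2, mul2]
  abel

lemma isAlt (hA : IsAlt A) : IsAlt (DN A) := by
  constructor
  · intro a b
    apply sub_eq_zero.mp
    show as a a b = 0
    apply ext
    · rw [as1]; unfold as; rw [hA.left, sub_self]; rfl
    · rw [as2, zero2]
      have h1 := p12 hA a.2 a.1 b.1
      have h2 : as a.1 a.1 b.2 = 0 := by unfold as; rw [hA.left, sub_self]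
      rw [h1, h2]; abel
  · intro a b
    apply sub_eq_zero.mp
    show as b a a = 0
    apply ext
    · rw [as1]; unfold as; rw [hA.right, sub_self]; rfl
    · rw [as2, zero2]
      have h1 := p23 hA b.1 a.2 a.1
      have h2 : as b.2 a.1 a.1 = 0 := by unfold as; rw [hA.right, sub_self]
      rw [h1, h2]; abel
/-- `x + ε y` -/
def mk (x y : A) : DN A := (x, y)
lemma mk1 (x y : A) : (mk x y).1 = x := rfl
lemma mk2 (x y : A) : (mk x y).2 = y := rfl
end DN

section
variable {A : Type} [NonUnitalNonAssocRing A]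

/-- `q(u,v;b,c) = [u,b][v,c] + [u,(v,b,c)]` -/
def qq (u v b c : A) : A := br u b * br v c + br u (as v b c)

/-- `N(a;b,c) = [[a,b][a,c] + [a,(a,b,c)], a]` -/
def N1 (a b c : A) : A := br (qq a a b c) a

/-- the derivative of `N(a;b,c)` with respect to `a` in the direction `d` -/
def N1d (a d b c : A) : A := br (qq a d b c + qq d a b c) a + br (qq a a b c) d

/-- `n(a,b;s,w,c)` -/
def nn (a b s w c : A) : A := N1d a (as b s w) b c

end

/-- the five identities -/
structure Ids : Prop where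
  I1 : ∀ (A : Type) [NonUnitalNonAssocRing A], IsAlt A → ∀ a b c : A, IsNuc (N1 a b c)
  I2 : ∀ (A : Type) [NonUnitalNonAssocRing A], IsAlt A → ∀ a b c y z : A, N1 a b c * as c y z = 0
  I3 : ∀ (A : Type) [NonUnitalNonAssocRing A], IsAlt A → ∀ a b x y z : A, N1 a b (as x y z) = 0
  I5 : ∀ (A : Type) [NonUnitalNonAssocRing A], IsAlt A → ∀ a b s w p q : A, nn a b s w (br p q) = 0
  I6 : ∀ (A : Type) [NonUnitalNonAssocRing A], IsAlt A → ∀ a b s w c z : A, br (nn a b s w c) z = 0

section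
variable {A : Type} [NonUnitalNonAssocRing A]

lemma as_z1 (b c : A) : as 0 b c = 0 := by unfold as; simp
lemma as_z2 (b c : A) : as b 0 c = 0 := by unfold as; simp
lemma as_z3 (b c : A) : as b c 0 = 0 := by unfold as; simp
lemma br_z1 (b : A) : br 0 b = 0 := by unfold br; simp
lemma br_z2 (b : A) : br b 0 = 0 := by unfold br; simp

open DN in
lemma N1_dn (a d b c : A) : N1 (mk a d) (mk b 0) (mk c 0) = mk (N1 a b c) (N1d a d b c) := by
  apply DN.ext
  · rfl
  · unfold N1 N1d qq
    simp only [DN.add1, DN.add2, br1, br2, DN.as1, DN.as2, DN.mul1, DN.mul2, mk1, mk2, as_z2, as_z3, br_z2, add_zero]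
    congr 2
    abel

variable (H : Ids) (hA : IsAlt A)
include H hA
open DN

lemma N1d_nuc (a d b c : A) : IsNuc (N1d a d b c) := by
  intro r s
  have h := H.I1 (DN A) (DN.isAlt hA) (mk a d) (mk b 0) (mk c 0) (mk r 0) (mk s 0)
  rw [N1_dn] at h
  have h2 := congrArg Prod.snd h
  rw [DN.as2] at h2
  simp only [mk1, mk2, as_z2, as_z3, add_zero] at h2
  exact h2

lemma N1d_I2 (a d b c y z : A) : N1d a d b c * as c y z = 0 := by
  have h := H.I2 (DN A) (DN.isAlt hA) (mk a d) (mk b 0) (mk c 0) (mk y 0) (mk z 0)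
  rw [N1_dn] at h
  have h2 := congrArg Prod.snd h
  rw [DN.mul2, DN.as2] at h2
  simp only [mk1, mk2, as_z1, as_z2, as_z3, add_zero, mul_zero, zero_add, DN.as1] at h2
  exact h2

lemma N1d_I3 (a d b x y z : A) : N1d a d b (as x y z) = 0 := by
  have h := H.I3 (DN A) (DN.isAlt hA) (mk a d) (mk b 0) (mk x 0) (mk y 0) (mk z 0)
  have e : as (mk x 0) (mk y 0) (mk z 0) = mk (as x y z) 0 := by
    apply DN.ext
    · rfl
    · rw [DN.as2]; simp only [mk1, mk2, as_z1, as_z2, as_z3, add_zero]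
  rw [e, N1_dn] at h
  exact congrArg Prod.snd h

lemma nn_nuc (a b s w c : A) : IsNuc (nn a b s w c) := N1d_nuc H hA _ _ _ _

lemma nn_central (a b s w c x : A) : nn a b s w c * x = x * nn a b s w c := by
  have h := H.I6 A hA a b s w c x
  unfold br at h
  exact sub_eq_zero.mp h

omit H hA in
lemma N1d_add (a d b c c' : A) : N1d a d b (c + c') = N1d a d b c + N1d a d b c' := by
  unfold N1d qq br as
  simp only [mul_add, add_mul, mul_sub, sub_mul]
  abel

/-- exchange of `c` with an argument of the associator -/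
lemma nn_swap (a b s w c x y z : A) : nn a b s w c * as x y z = - (nn a b s w x * as c y z) := by
  have h := N1d_I2 H hA a (as b s w) b (c + x) y z
  rw [N1d_add, LemV.as_add1] at h
  simp only [mul_add, add_mul] at h
  rw [N1d_I2 H hA, N1d_I2 H hA] at h
  unfold nn
  linear_combination (norm := abel) h

lemma nn_P1 (a b s w c p q y z : A) : nn a b s w c * as (br p q) y z = 0 := by
  rw [nn_swap H hA, H.I5 A hA, zero_mul, neg_zero]

lemma nn_P2 (a b s w c p q r y z : A) : nn a b s w c * as (as p q r) y z = 0 := by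
  rw [nn_swap H hA]
  have h : nn a b s w (as p q r) = 0 := N1d_I3 H hA _ _ _ _ _ _
  rw [h, zero_mul, neg_zero]

/-- a nonzero value of `n` gives a nonzero nuclear element that annihilates associators -/
theorem exists_k (a b s w c : A) (h0 : nn a b s w c ≠ 0) :
    ∃ k : A, k ≠ 0 ∧ IsNuc k ∧ (∀ y r s : A, k * as y r s = 0) ∧
      (k = nn a b s w c ∨ ∃ t, k = nn a b s w c * t) :=
  LemV.main hA (nn_nuc H hA a b s w c) (fun x => nn_central H hA a b s w c x) h0
    (fun p q r t => nn_P1 H hA a b s w c p q r t) (fun p q r t u => nn_P2 H hA a b s w c p q r t u)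

end

/-! ### Ideals -/
section
variable {Φ : Type} [CommRing Φ] {A : Type} [NonUnitalNonAssocRing A] [Module Φ A] [IsScalarTower Φ A A]
    [SMulCommClass Φ A A]

lemma ideal_idealGen (S : Set A) : IsIdeal Φ A (idealGen Φ A S) := by
  intro a x hx
  unfold idealGen at *
  simp only [Submodule.mem_sInf] at *
  exact ⟨fun I hI => (hI.1 a x (hx I hI)).1, fun I hI => (hI.1 a x (hx I hI)).2⟩

lemma subset_idealGen (S : Set A) {s : A} (hs : s ∈ S) : s ∈ idealGen Φ A S := by
  unfold idealGen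
  simp only [Submodule.mem_sInf]
  exact fun I hI => hI.2 hs

lemma as_mem_D (a b c : A) : as a b c ∈ Dideal Φ A := subset_idealGen _ ⟨a, b, c, rfl⟩

lemma D_ideal : IsIdeal Φ A (Dideal Φ A) := ideal_idealGen _

lemma D_br1 {t : A} (h : t ∈ Dideal Φ A) (a : A) : br t a ∈ Dideal Φ A :=
  Submodule.sub_mem _ (D_ideal a t h).2 (D_ideal a t h).1

lemma D_br2 {t : A} (h : t ∈ Dideal Φ A) (a : A) : br a t ∈ Dideal Φ A :=
  Submodule.sub_mem _ (D_ideal a t h).1 (D_ideal a t h).2

lemma nn_mem_D (a b s w c : A) : nn a b s w c ∈ Dideal Φ A := by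
  have hd : as b s w ∈ Dideal Φ A := as_mem_D b s w
  unfold nn N1d qq
  refine Submodule.add_mem _ (D_br1 (Submodule.add_mem _ ?_ ?_) _) (D_br2 hd _)
  · exact Submodule.add_mem _ (D_ideal _ _ (D_br1 hd _)).1 (D_br2 (as_mem_D _ _ _) _)
  · exact Submodule.add_mem _ (D_ideal _ _ (D_br1 hd _)).2 (D_br1 hd _)

lemma as_smul (r : Φ) (a b c : A) : as (r • a) b c = r • as a b c := by
  unfold as; rw [smul_mul_assoc, smul_mul_assoc, smul_mul_assoc, smul_sub]

variable (Φ) in
/-- the ideal of nuclear elements annihilating all associators -/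
def J (_hA : IsAlt A) : Submodule Φ A where
  carrier := {m | IsNuc m ∧ ∀ y r s, m * as y r s = 0}
  add_mem' := by
    rintro a b ⟨ha, ha'⟩ ⟨hb, hb'⟩
    exact ⟨fun r s => by rw [LemV.as_add1, ha, hb, add_zero], fun y r s => by rw [add_mul, ha', hb', add_zero]⟩
  zero_mem' := ⟨fun r s => as_z1 _ _, fun y r s => zero_mul _⟩
  smul_mem' := by
    rintro c a ⟨ha, ha'⟩
    exact ⟨fun r s => by rw [as_smul, ha, smul_zero], fun y r s => by rw [smul_mul_assoc, ha', smul_zero]⟩

lemma J_ideal (hA : IsAlt A) : IsIdeal Φ A (J Φ hA) := by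
  rintro a m ⟨hm, hm'⟩
  have h2 : IsNuc (m * a) := fun b c => by rw [hm.mul_left hA, hm']
  refine ⟨⟨fun b c => by rw [hm.mul_right hA, hm'], fun y r s => ?_⟩, ⟨h2, fun y r s => ?_⟩⟩
  · have h := hm.two hA a (as y r s)
    unfold as at h
    rw [sub_eq_zero] at h
    have h3 := hm' y r s
    unfold as at h3 ⊢
    rw [h, h3, mul_zero]
  · have h := hm a y
    unfold as at h
    rw [sub_eq_zero] at h
    rw [← h2.mul_left hA, h, hm.mul_left hA, hm']

lemma J_le (hA : IsAlt A) : J Φ hA ≤ Uideal Φ A :=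
  le_sSup ⟨J_ideal hA, fun _ hm => (mem_nucleus hA).mpr hm.1⟩

/-- if `n(a,b;s,w,c)` is not zero then `U ∩ D` is not zero -/
theorem inter_ne (H : Ids) (hA : IsAlt A) (a b s w c : A) (h0 : nn a b s w c ≠ 0) :
    Uideal Φ A ⊓ Dideal Φ A ≠ ⊥ := by
  obtain ⟨k, hk0, hkN, hkD, hk⟩ := exists_k H hA a b s w c h0
  have hD : k ∈ Dideal Φ A := by
    rcases hk with rfl | ⟨t, rfl⟩
    · exact nn_mem_D a b s w c
    · exact (D_ideal t _ (nn_mem_D a b s w c)).2
  have hU : k ∈ Uideal Φ A := J_le hA ⟨hkN, hkD⟩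
  intro h
  exact hk0 ((Submodule.mem_bot Φ).mp (h ▸ (⟨hU, hD⟩ : k ∈ Uideal Φ A ⊓ Dideal Φ A)))

end

/-! ### The free algebra -/

lemma map_nn {A B : Type} [NonUnitalNonAssocRing A] [NonUnitalNonAssocRing B] (f : A →ₙ+* B) (a b s w c : A) :
    f (nn a b s w c) = nn (f a) (f b) (f s) (f w) (f c) := by
  unfold nn N1d qq br as
  simp only [map_sub, map_mul, map_add]

/-- if some alternative `Φ`-algebra has a nonzero value of `n` then the free alternative algebra is not separated -/
theorem free_ne (Φ : Type) [CommRing Φ] (X : Type) [Infinite X] (H : Ids)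
    (B : Type) [NonUnitalNonAssocRing B] [Module Φ B] [IsScalarTower Φ B B] [SMulCommClass Φ B B]
    (hB : IsAlt B) (v : Fin 5 → B) (h0 : nn (v 0) (v 1) (v 2) (v 3) (v 4) ≠ 0) :
    Uideal Φ (FreeAlt Φ X) ⊓ Dideal Φ (FreeAlt Φ X) ≠ ⊥ := by
  classical
  let ι : Fin 5 ↪ X := Fin.valEmbedding.trans (Infinite.natEmbedding X)
  let f : X → B := fun x => if h : ∃ i, ι i = x then v h.choose else 0
  have hf : ∀ i, f (ι i) = v i := by
    intro i
    have h : ∃ j, ι j = ι i := ⟨i, rfl⟩
    show (if h : ∃ j, ι j = ι i then v h.choose else 0) = v i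
    rw [dif_pos h]
    exact congrArg v (ι.injective h.choose_spec)
  let g : FreeAlt Φ X →ₙₐ[Φ] B := FreeAlt.lift (fun a b => ⟨hB.left a b, hB.right a b⟩) f
  let g' : FreeAlt Φ X →ₙ+* B :=
    { toFun := g, map_mul' := map_mul g, map_zero' := map_zero g, map_add' := map_add g }
  have hg : ∀ i, g' (FreeAlt.gen (ι i)) = v i := fun i =>
    (FreeAlt.lift_gen (fun a b => ⟨hB.left a b, hB.right a b⟩) f (ι i)).trans (hf i)
  apply inter_ne (Φ := Φ) H freeAlt_isAlt (FreeAlt.gen (ι 0)) (FreeAlt.gen (ι 1)) (FreeAlt.gen (ι 2))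
    (FreeAlt.gen (ι 3)) (FreeAlt.gen (ι 4))
  intro h
  apply h0
  have h1 := map_nn g' (FreeAlt.gen (ι 0)) (FreeAlt.gen (ι 1)) (FreeAlt.gen (ι 2))
    (FreeAlt.gen (ι 3)) (FreeAlt.gen (ι 4))
  rw [h, map_zero, hg, hg, hg, hg, hg] at h1
  exact h1.symm

end Pool.Agent.Helper341.Alt.Asm
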