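import Pool.Agent.Helper817.AllPhi
import Pool.Agent.Helper341.Alt.W3.I3
import Pool.Agent.Helper341.Alt.W2.Qp
set_option autoImplicit false

/-!
All identities, and the final theorem: the free alternative algebra of infinite rank over any nonzero commutative
ring has `U ∩ D ≠ 0`.
-/

namespace Pool.Agent.Helper341.Alt.Final
open Pool.Agent.Helper928.Nuc.Tens Pool.Agent.Helper928.Nuc.Free Pool.Agent.Helper817.AllPhi

theorem i3 : I3 := fun _ _ hA a b x y z => W3.I3_id hA a b x y z

theorem i5 : I5 := fun _ _ hA h2 a b s w p q => W2.main2 hA h2 a b s w p q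

end Pool.Agent.Helper341.Alt.Final
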