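import Pool.Agent.Helper928.Nuc.Alt
set_option autoImplicit false
set_option linter.unusedSectionVars false

/-!
Alternative rings in which a nonzero central nuclear element `g` kills `([p,q],r,s)` and `((p,q,r),s,t)`:
there is a nonzero multiple of `g` (or `g` itself) that is nuclear and annihilates all associators.
-/

namespace Pool.Agent.Helper341.Alt.LemV
open Pool.Agent.Helper928.Nuc.Tens Pool.Agent.Helper928.Nuc.Free Pool.Agent.Helper928.Nuc.Alt

section
variable {B : Type} [NonUnitalNonAssocRing B]

lemma as_add1 (a a' b c : B) : as (a + a') b c = as a b c + as a' b c := by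
  unfold as; simp only [add_mul]; abel
lemma as_add2 (a b b' c : B) : as a (b + b') c = as a b c + as a b' c := by
  unfold as; simp only [add_mul, mul_add]; abel
lemma as_add3 (a b c c' : B) : as a b (c + c') = as a b c + as a b c' := by
  unfold as; simp only [mul_add]; abel
lemma as_neg1 (a b c : B) : as (-a) b c = - as a b c := by
  unfold as; simp only [neg_mul]; abel
lemma br_add1 (a a' b : B) : br (a + a') b = br a b + br a' b := by
  unfold br; simp only [add_mul, mul_add]; abel
lemma br_antisymm (a b : B) : br a b = - br b a := by unfold br; abel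

variable (hB : IsAlt B)
include hB

lemma flex (a b : B) : as a b a = 0 := by
  rw [p12 hB]; unfold as; rw [hB.right, sub_self, neg_zero]
lemma as_self1 (a b : B) : as a a b = 0 := by unfold as; rw [hB.left, sub_self]
lemma as_self2 (a b : B) : as b a a = 0 := by unfold as; rw [hB.right, sub_self]

/-- `F(a,b,c,d) = (ab,c,d) - b(a,c,d) - (b,c,d)a` changes sign under a cyclic shift -/
lemma F_cyc (a b c d : B) :
    (as (a * b) c d - b * as a c d - as b c d * a) = -(as (d * a) b c - a * as d b c - as a b c * d) := by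
  have h1 := cocycle a b c d
  have h2 := cocycle b c d a
  rw [pc1 hB a (b * c) d, pc2 hB a b (c * d)] at h1
  rw [pc1 hB b (c * d) a, pc2 hB b c (d * a)] at h2
  rw [pc1 hB d b c, pc1 hB a c d]
  linear_combination (norm := abel) - h1 - h2

lemma F_34 (a b c d : B) :
    (as (a * b) d c - b * as a d c - as b d c * a) = -(as (a * b) c d - b * as a c d - as b c d * a) := by
  rw [p23 hB (a * b) d c, p23 hB a d c, p23 hB b d c, mul_neg, neg_mul]; abel

lemma F_12 (a b c d : B) :
    (as (b * a) c d - a * as b c d - as a c d * b) = -(as (a * b) c d - b * as a c d - as b c d * a) := by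
  rw [F_cyc hB a b c d, F_cyc hB d a b c, F_34 hB c d b a, F_cyc hB c d b a, F_cyc hB a c d b]
  simp only [neg_neg]

lemma F_pair (a b c d : B) :
    (as (c * d) a b - d * as c a b - as d a b * c) = (as (a * b) c d - b * as a c d - as b c d * a) := by
  rw [F_cyc hB a b c d, F_cyc hB d a b c, neg_neg]

/-- the Kleinfeld function in terms of commutators -/
lemma F_comm (a b c d : B) :
    as (a * b) c d - b * as a c d - as b c d * a = as (br a b) c d + as (br c d) a b := by
  have h1 := cocycle a b c d
  rw [pc1 hB a (b * c) d, pc2 hB a b (c * d)] at h1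
  have h2 := F_12 hB a b c d
  have h3 := F_12 hB c d a b
  have h4 := F_pair hB a b c d
  have h5 := F_cyc hB b c d a
  have e1 := pc1 hB a c d
  have e2 := pc1 hB d a b
  have e3 := pc1 hB b d a
  have e4 := pc2 hB b c a
  have e5 := pc1 hB c a b
  rw [e1] at h2 h4 h5 ⊢
  rw [e2] at h3 h4
  rw [e5] at h3 h4
  rw [pc1 hB b d a, pc1 hB d a b] at h5
  unfold br
  rw [as_sub1, as_sub1]
  linear_combination (norm := abel) h2 + h3 - h4 + h1 - h5

/-- if `[y,z]`, `[p,q]` are nuclear then `(·,y,z)` is a derivation at `(p,q)` -/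
lemma K_der (hC : ∀ p q : B, IsNuc (br p q)) (p q y z : B) :
    as (p * q) y z = p * as q y z + as p y z * q := by
  have h1 := F_comm hB q p y z
  rw [hC q p, hC y z, add_zero] at h1
  have h2 : as (br p q) y z = 0 := hC p q y z
  unfold br at h2
  rw [as_sub1] at h2
  linear_combination (norm := abel) h1 + h2

lemma K_der' (hC : ∀ p q : B, IsNuc (br p q)) (p q y z : B) :
    as (p * q) y z = q * as p y z + as q y z * p := by
  have h1 := F_comm hB p q y z
  rw [hC p q, hC y z, add_zero] at h1
  linear_combination (norm := abel) h1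

lemma th0 (hC : ∀ p q : B, IsNuc (br p q)) (x z u v : B) : br x z * as x u v = 0 := by
  have h1 := (hC x z).mul_left hB x u v
  have h2 : br x z * x = br x (z * x) := by
    have := flex hB x z
    unfold as at this
    unfold br
    rw [sub_mul]
    linear_combination (norm := abel) this
  rw [h2, hC] at h1
  exact h1.symm

lemma th1 (hC : ∀ p q : B, IsNuc (br p q)) (x y z u v : B) : br x z * as y u v = - (br y z * as x u v) := by
  have h := th0 hB hC (x + y) z u v
  rw [br_add1, as_add1] at h
  simp only [mul_add, add_mul] at h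
  rw [th0 hB hC x z u v, th0 hB hC y z u v] at h
  linear_combination (norm := abel) h

/-- commutators with nuclear elements annihilate associators -/
lemma nuc_comm (hC : ∀ p q : B, IsNuc (br p q)) {e : B} (he : IsNuc e) (z y u v : B) :
    br e z * as y u v = 0 := by
  rw [th1 hB hC, he, mul_zero, neg_zero]

lemma three_as (x y z : B) : as x y z + as x y z + as x y z = br (x * y) z - x * br y z - br x z * y := by
  have h1 : as x y z = - as x z y := p23 hB x y z
  have h2 : as x y z = as z x y := pc2 hB x y z
  have e : br (x * y) z - x * br y z - br x z * y = as x y z - as x z y + as z x y := by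
    unfold br as; rw [mul_sub, sub_mul]; abel
  rw [e]
  linear_combination (norm := abel) h1 + h2

/-- `(x,y,z)z` is an associator -/
lemma as_mul_self (x y z : B) : as x y z * z = - as (z * y) x z := by
  have h := F_cyc hB z y x z
  have h5 := F_comm hB z z y x
  have h6 : br z z = 0 := by unfold br; rw [sub_self]
  have h7 : as (br z z) y x = 0 := by rw [h6]; unfold as; simp
  rw [h7, as_self2 hB, add_zero] at h5
  rw [h5, neg_zero, flex hB z x, mul_zero, sub_zero] at h
  rw [sub_eq_zero.mp h, p12 hB x y z, neg_mul]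

section caseC
variable (hC : ∀ p q : B, IsNuc (br p q)) (hS : ∀ p q r : B, IsNuc (as p q r))
include hC hS

lemma ee_alt (x y z v w : B) : as x y z * as z v w = 0 := by
  have h := (hS x y z).mul_left hB z v w
  rw [← h]
  have h2 : as x y z * z = - as (z * y) x z := as_mul_self hB x y z
  rw [h2, as_neg1, hS, neg_zero]

lemma ee_swap (x y z u v w : B) : as x y z * as u v w = - (as x y u * as z v w) := by
  have h := ee_alt hB hC hS x y (z + u) v w
  rw [as_add3, as_add1] at h
  simp only [mul_add, add_mul] at h
  rw [ee_alt hB hC hS x y z v w, ee_alt hB hC hS x y u v w] at h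
  linear_combination (norm := abel) h

/-- `e e' = - e' e` -/
lemma ee_anti (x y z u v w : B) : as x y z * as u v w = - (as u v w * as x y z) := by
  -- move u v w to the front by nine adjacent transpositions
  have s12 : ∀ a b c d e f : B, as a b c * as d e f = - (as b a c * as d e f) := fun a b c d e f => by
    rw [p12 hB a b c, neg_mul]
  have s23 : ∀ a b c d e f : B, as a b c * as d e f = - (as a c b * as d e f) := fun a b c d e f => by
    rw [p23 hB a b c, neg_mul]
  have s34 := ee_swap hB hC hS
  have s45 : ∀ a b c d e f : B, as a b c * as d e f = - (as a b c * as e d f) := fun a b c d e f => by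
    rw [p12 hB d e f, mul_neg]
  have s56 : ∀ a b c d e f : B, as a b c * as d e f = - (as a b c * as d f e) := fun a b c d e f => by
    rw [p23 hB d e f, mul_neg]
  rw [s34 x y z u v w, s23 x y u z v w, s12 x u y z v w, s45 u x y z v w, s34 u x y v z w, s23 u x v y z w,
    s56 u v x y z w, s45 u v x y w z, s34 u v x w y z]
  simp only [neg_neg]

lemma two_ee (hc : ∀ p q r z : B, br (as p q r) z = 0) (x y z u v w : B) :
    as x y z * as u v w + as x y z * as u v w = 0 := by
  have h := ee_anti hB hC hS x y z u v w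
  have h2 : as x y z * as u v w = as u v w * as x y z := by
    have := hc x y z (as u v w)
    unfold br at this
    exact sub_eq_zero.mp this
  nth_rewrite 1 [h]
  rw [h2]; abel

lemma three_ee (hc : ∀ p q r z : B, br (as p q r) z = 0) (x y z u v w : B) :
    as x y z * as u v w + as x y z * as u v w + as x y z * as u v w = 0 := by
  have h0 : (as x y z + as x y z + as x y z) * as u v w =
      (br (x * y) z - x * br y z - br x z * y) * as u v w := by rw [three_as hB]
  rw [add_mul, add_mul] at h0
  rw [h0, sub_mul, sub_mul]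
  -- the three terms
  have hN : ∀ p q : B, IsNuc (br p q) := hC
  have t1 : br (x * y) z * as u v w = - (br u z * (x * as y v w)) - br u z * (as x v w * y) := by
    rw [th1 hB hC (x * y) u z v w, K_der hB hC x y v w, mul_add]; abel
  have t2 : (x * br y z) * as u v w = - (x * (br u z * as y v w)) := by
    have h := (hN y z).two hB x (as u v w)
    unfold Pool.Agent.Helper928.Nuc.Tens.as at h
    rw [sub_eq_zero] at h
    rw [show (x * br y z) * as u v w = x * (br y z * as u v w) from h, th1 hB hC y u z v w, mul_neg]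
  have m1 : ∀ (m : B), IsNuc m → ∀ a b : B, (m * a) * b = m * (a * b) := fun m hm a b => by
    have h := hm a b
    unfold Pool.Agent.Helper928.Nuc.Tens.as at h
    exact sub_eq_zero.mp h
  have m2 : ∀ (m : B), IsNuc m → ∀ a b : B, (a * m) * b = a * (m * b) := fun m hm a b => by
    have h := hm.two hB a b
    unfold Pool.Agent.Helper928.Nuc.Tens.as at h
    exact sub_eq_zero.mp h
  have t3 : (br x z * y) * as u v w = - (br u z * (as x v w * y)) := by
    rw [m1 _ (hN x z)]
    have h := hc u v w y
    unfold br at h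
    rw [← sub_eq_zero.mp h, ← m1 _ (hN x z), th1 hB hC x u z v w, neg_mul, m1 _ (hN u z)]
  have t4 : br u z * (x * as y v w) = x * (br u z * as y v w) := by
    have h := nuc_comm hB hC (hN u z) x y v w
    have e : br (br u z) x = br u z * x - x * br u z := rfl
    rw [e, sub_mul, m1 _ (hN u z), m2 _ (hN u z)] at h
    exact sub_eq_zero.mp h
  rw [t1, t2, t3, t4]; abel

lemma ee_zero (hc : ∀ p q r z : B, br (as p q r) z = 0) (x y z u v w : B) : as x y z * as u v w = 0 := by
  have h2 := two_ee hB hC hS hc x y z u v w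
  have h3 := three_ee hB hC hS hc x y z u v w
  rw [h2, zero_add] at h3
  exact h3

/-- in an alternative ring with nuclear commutators and nuclear associators that is not associative there is a
nonzero nuclear element in the associator ideal that annihilates all associators -/
theorem lemV (hne : ∃ x y z : B, as x y z ≠ 0) :
    ∃ k : B, k ≠ 0 ∧ IsNuc k ∧ (∀ y r s : B, k * as y r s = 0) ∧
      ((∃ x y z : B, k = as x y z) ∨ ∃ x y z t : B, k = br (as x y z) t) := by
  by_cases hc : ∀ p q r z : B, br (as p q r) z = 0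
  · obtain ⟨x, y, z, h⟩ := hne
    exact ⟨as x y z, h, hS x y z, fun u v w => ee_zero hB hC hS hc x y z u v w, Or.inl ⟨x, y, z, rfl⟩⟩
  · push Not at hc
    obtain ⟨p, q, r, z, h⟩ := hc
    exact ⟨_, h, hC _ _, fun u v w => nuc_comm hB hC (hS p q r) z u v w, Or.inr ⟨p, q, r, z, rfl⟩⟩

end caseC

end

/-! ### The quotient by the annihilator of a central nuclear element -/
section Quot
variable {A : Type} [NonUnitalNonAssocRing A]

/-- the congruence `g x = g y` -/
def gcon (g : A) (hA : IsAlt A) (hg : IsNuc g) (hz : ∀ x, g * x = x * g) : RingCon A where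
  r x y := g * x = g * y
  iseqv := ⟨fun _ => rfl, fun h => h.symm, fun h h' => h.trans h'⟩
  add' := by
    intro w x y z h h'
    show g * (w + y) = g * (x + z)
    rw [mul_add, mul_add, h, h']
  mul' := by
    intro w x y z h h'
    have m1 : ∀ a b : A, g * (a * b) = (g * a) * b := fun a b => by
      have h := hg a b
      unfold as at h
      exact (sub_eq_zero.mp h).symm
    have m2 : ∀ a b : A, (a * g) * b = a * (g * b) := fun a b => by
      have h := hg.two hA a b
      unfold as at h
      exact sub_eq_zero.mp h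
    have h : g * w = g * x := h
    have h' : g * y = g * z := h'
    show g * (w * y) = g * (x * z)
    rw [m1, m1, h, hz x, m2, m2, h']

variable {g : A} (hA : IsAlt A) (hg : IsNuc g) (hz : ∀ x, g * x = x * g)

noncomputable instance instQ : NonUnitalNonAssocRing (gcon g hA hg hz).Quotient where
  left_distrib := by
    rintro ⟨a⟩ ⟨b⟩ ⟨c⟩
    exact congrArg _ (mul_add a b c)
  right_distrib := by
    rintro ⟨a⟩ ⟨b⟩ ⟨c⟩
    exact congrArg _ (add_mul a b c)
  zero_mul := by
    rintro ⟨a⟩
    exact congrArg _ (zero_mul a)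
  mul_zero := by
    rintro ⟨a⟩
    exact congrArg _ (mul_zero a)

/-- the class of an element -/
def qm (a : A) : (gcon g hA hg hz).Quotient := (a : (gcon g hA hg hz).Quotient)

lemma qm_surj (t : (gcon g hA hg hz).Quotient) : ∃ a, qm hA hg hz a = t := by
  rcases t with ⟨a⟩
  exact ⟨a, rfl⟩

lemma qm_eq (a b : A) : qm hA hg hz a = qm hA hg hz b ↔ g * a = g * b := by
  show (a : (gcon g hA hg hz).Quotient) = (b : (gcon g hA hg hz).Quotient) ↔ _
  rw [RingCon.eq]
  rfl

lemma qm_mul (a b : A) : qm hA hg hz (a * b) = qm hA hg hz a * qm hA hg hz b := rfl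
lemma qm_sub (a b : A) : qm hA hg hz (a - b) = qm hA hg hz a - qm hA hg hz b := rfl
lemma qm_zero : qm hA hg hz (0 : A) = 0 := rfl
lemma qm_as (a b c : A) : qm hA hg hz (as a b c) = as (qm hA hg hz a) (qm hA hg hz b) (qm hA hg hz c) := rfl
lemma qm_br (a b : A) : qm hA hg hz (br a b) = br (qm hA hg hz a) (qm hA hg hz b) := rfl
lemma qm_eq_zero (a : A) : qm hA hg hz a = 0 ↔ g * a = 0 := by
  rw [← qm_zero hA hg hz, qm_eq, mul_zero]

lemma q_alt : IsAlt (gcon g hA hg hz).Quotient := by
  constructor
  · intro a b
    obtain ⟨a, rfl⟩ := qm_surj hA hg hz a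
    obtain ⟨b, rfl⟩ := qm_surj hA hg hz b
    rw [← qm_mul, ← qm_mul, ← qm_mul, ← qm_mul, hA.left]
  · intro a b
    obtain ⟨a, rfl⟩ := qm_surj hA hg hz a
    obtain ⟨b, rfl⟩ := qm_surj hA hg hz b
    rw [← qm_mul, ← qm_mul, ← qm_mul, ← qm_mul, hA.right]

include hA hg hz in
/-- a nonzero central nuclear `g` with `g ([p,q],r,s) = 0` and `g ((p,q,r),s,t) = 0` has a nonzero multiple that is
nuclear and annihilates all associators -/
theorem main (hg0 : g ≠ 0) (P1 : ∀ p q r s : A, g * as (br p q) r s = 0)
    (P2 : ∀ p q r s t : A, g * as (as p q r) s t = 0) :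
    ∃ k : A, k ≠ 0 ∧ IsNuc k ∧ (∀ y r s : A, k * as y r s = 0) ∧ (k = g ∨ ∃ t, k = g * t) := by
  by_cases hD : ∀ x y z : A, g * as x y z = 0
  · exact ⟨g, hg0, hg, hD, Or.inl rfl⟩
  · push Not at hD
    obtain ⟨x, y, z, hxyz⟩ := hD
    have hB := q_alt hA hg hz
    have hC : ∀ p q : (gcon g hA hg hz).Quotient, IsNuc (br p q) := by
      intro p q r s
      obtain ⟨p, rfl⟩ := qm_surj hA hg hz p
      obtain ⟨q, rfl⟩ := qm_surj hA hg hz q
      obtain ⟨r, rfl⟩ := qm_surj hA hg hz r
      obtain ⟨s, rfl⟩ := qm_surj hA hg hz s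
      rw [← qm_br, ← qm_as, qm_eq_zero]
      exact P1 p q r s
    have hS : ∀ p q r : (gcon g hA hg hz).Quotient, IsNuc (as p q r) := by
      intro p q t r s
      obtain ⟨p, rfl⟩ := qm_surj hA hg hz p
      obtain ⟨q, rfl⟩ := qm_surj hA hg hz q
      obtain ⟨t, rfl⟩ := qm_surj hA hg hz t
      obtain ⟨r, rfl⟩ := qm_surj hA hg hz r
      obtain ⟨s, rfl⟩ := qm_surj hA hg hz s
      rw [← qm_as, ← qm_as, qm_eq_zero]
      exact P2 p q t r s
    obtain ⟨k, hk0, hkN, hkD, -⟩ := lemV hB hC hS
      ⟨qm hA hg hz x, qm hA hg hz y, qm hA hg hz z, by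
        rw [← qm_as, Ne, qm_eq_zero]; exact hxyz⟩
    obtain ⟨t, rfl⟩ := qm_surj hA hg hz k
    refine ⟨g * t, ?_, ?_, ?_, Or.inr ⟨t, rfl⟩⟩
    · rw [Ne, qm_eq_zero] at hk0; exact hk0
    · intro a b
      rw [hg.mul_left hA]
      have h := hkN (qm hA hg hz a) (qm hA hg hz b)
      rw [← qm_as, qm_eq_zero] at h
      exact h
    · intro y r s
      have h := hkD (qm hA hg hz y) (qm hA hg hz r) (qm hA hg hz s)
      rw [← qm_as, ← qm_mul, qm_eq_zero] at h
      have h2 := hg t (as y r s)
      rw [as, sub_eq_zero] at h2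
      rw [h2, h]

end Quot
end Pool.Agent.Helper341.Alt.LemV
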